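import Pool.Agent.Q264.GM.Def

/-!
# Monotonicity of the Gaussian measure under the modified Banaszczyk transform: the steps
-/

set_option autoImplicit false

open MeasureTheory ProbabilityTheory Set Filter Topology
open scoped InnerProductSpace ENNReal

namespace Pool.Agent.Q264.GM

/-- PHI. Basic facts on `Φ = P` and `φ = ph`.
Proof: `gaussianReal 0 1` has density `gaussianPDFReal 0 1 = ph` (`gaussianReal_apply`,
`gaussianPDFReal`), continuous and positive, so `P x = ∫ t in Iic x, ph t`, with derivative `ph x`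
(e.g. `P b - P a = ∫ t in a..b, ph t`), strictly increasing; symmetry: the map `x ↦ -x` preserves
`gaussianReal 0 1` (`gaussianReal_map_neg`), no atoms. Limits: `cdf` (`tendsto_cdf_atBot` etc., or
`cdf_eq_real`). -/
def S_PHI : Prop :=
  (∀ x, HasDerivAt P (ph x) x) ∧ StrictMono P ∧ (∀ x, 0 < P x) ∧ (∀ x, P x < 1) ∧
    (∀ x, P (-x) = 1 - P x) ∧ Tendsto P atBot (𝓝 0) ∧ Tendsto P atTop (𝓝 1) ∧
    (∀ a b, a ≤ b → g1.real (Icc a b) = P b - P a) ∧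
    (∀ a b, a ≤ b → g1.real (Ioc a b) = P b - P a)

/-- MILLS. The lower bound for the tail of the Gaussian.
Proof: `f x = P (-x) - x * ph x / (1 + x ^ 2)` has derivative
`-ph x - (ph x * (1 - x ^ 2) * (1 + x ^ 2) - 2 * x ^ 2 * ph x) / (1 + x ^ 2) ^ 2
 = - 2 * ph x / (1 + x ^ 2) ^ 2 < 0` (as `ph' x = - x * ph x`), and tends to `0` at infinity, so
`f ≥ 0`. -/
def S_MILLS : Prop := ∀ x : ℝ, 0 < x → x * ph x ≤ (1 + x ^ 2) * P (-x)

/-- LEM. If `T z = T x + T y` for the tails `T x = Φ(-x)` of `x, y, z > 0` then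
`φ(x)/x + φ(y)/y ≤ φ(z)/z`.
Proof: `z < x` and `z < y` as `T` is strictly decreasing and positive. `h x = ph x / (x * P (-x))`
is antitone on `(0, ∞)`: the derivative of `log h` is `-x - 1/x + ph x / P (-x) ≤ 0` by MILLS.
So `ph z / z = h z * T z = h z * T x + h z * T y ≥ h x * T x + h y * T y`. -/
def S_LEM : Prop := ∀ x y z : ℝ, 0 < x → 0 < y → 0 < z → P (-z) = P (-x) + P (-y) →
  ph x / x + ph y / y ≤ ph z / z

/-- QF. With `q x = x / φ(x)`: if `T z = T x + T y` (any signs) then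
`q z * (Y - X) ^ 2 ≤ q x * X ^ 2 + q y * Y ^ 2`.
Proof: `q` is odd and strictly increasing (`q x = c * x * exp (x ^ 2 / 2)`), `z < x`, `z < y`,
`q z ≤ q x`, `q z ≤ q y`. Claim K3: `q z * (q x + q y) ≤ q x * q y`. If `z > 0` then `x, y > 0` and
it is LEM multiplied by `q x q y q z > 0` (`ph x / x = 1 / q x`). If `z ≤ 0` and `x, y ≥ 0` then
`q z ≤ 0`, `q x, q y ≥ 0`: clear. If `x < 0` (so `z < 0`; `T x > 1/2`, so `T y = T z - T x < 1/2`,
`y > 0`): `T (-x) = 1 - T x`, `T (-z) = 1 - T z`, hence `T (-x) = T (-z) + T y` and LEM for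
`(-z, y, -x)` gives `1 / q (-z) + 1 / q y ≤ 1 / q (-x)`, which is K3 after multiplication. The case
`y < 0` is symmetric. Then the quadratic form
`(q x - q z) X ^ 2 + (q y - q z) Y ^ 2 + 2 q z X Y` has nonnegative diagonal and determinant
`q x q y - q z (q x + q y) ≥ 0`, so it is nonnegative. -/
def S_QF : Prop := ∀ x y z : ℝ, P (-z) = P (-x) + P (-y) → ∀ X Y : ℝ,
  z / ph z * (Y - X) ^ 2 ≤ x / ph x * X ^ 2 + y / ph y * Y ^ 2

/-- EHRC. Ehrhard's inequality for compact intervals of the line.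
Proof: `A l = (1-l) a + l a'`, `B l = (1-l) b + l b'`, `A l < B l` on `[0,1]`. By PHI, `P` is a
bijection of `ℝ` onto `(0,1)` with inverse `Ψ`, of derivative `1 / ph (Ψ v)` at `v`
(`HasDerivAt.of_local_left_inverse` or the like). `F l = P (B l) - P (A l) ∈ (0,1)`,
`W l = Ψ (F l)`, so `W' l = (ph (B l) β - ph (A l) α) / ph (W l)`, `α = a' - a`, `β = b' - b`, and
since `ph' x = - x ph x`,
`ph (W) W'' = (W / ph W) (Y - X) ^ 2 - (B / ph B) Y ^ 2 - (-A / ph (-A)) X ^ 2` with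
`X = ph (A) α`, `Y = ph (B) β`. Since `P (-W) = 1 - P W = 1 - P B + P A = P (-B) + P (-(-A))`, QF
with `(x, y, z) = (-A, B, W)` gives `W'' ≤ 0`; so `W` is concave on `[0,1]`
(`concaveOn_of_deriv2_nonpos`, or: `W'` is antitone). As `W 0 ≥ s`, `W 1 ≥ s'`,
`W l ≥ (1-l) s + l s'`, apply `P`. -/
def S_EHRC : Prop := ∀ a b a' b' s s' l : ℝ, a < b → a' < b' → 0 < l → l < 1 →
  P s ≤ P b - P a → P s' ≤ P b' - P a' →
  P ((1 - l) * s + l * s') ≤ P ((1 - l) * b + l * b') - P ((1 - l) * a + l * a')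

/-- EHR. Ehrhard's inequality for convex sets of the line (no closedness or measurability).
Proof: a convex set `I` of the line with `P s ≤ g1.real I`; for `ε > 0` there are `a < b` with
`Icc a b ⊆ I` and `P (s - ε) ≤ P b - P a` (`g1.real I = g1.real (interior I)`: `I` is an interval,
`I \ interior I` has at most two points; exhaust the interior by compact intervals, or by
`OrdConnected` case analysis; `P (s-ε) < P s`). Apply EHRC to the two compact intervals with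
`s - ε`, `s' - ε`; the interval `[(1-l)a+la', (1-l)b+lb']` is contained in `H`. So
`P ((1-l)s+ls'-ε) ≤ g1.real H`; let `ε → 0` (`P` is continuous). -/
def S_EHR : Prop := ∀ (I J H : Set ℝ) (s s' l : ℝ), Convex ℝ I → Convex ℝ J → 0 < l → l < 1 →
  (∀ x ∈ I, ∀ y ∈ J, (1 - l) * x + l * y ∈ H) → P s ≤ g1.real I → P s' ≤ g1.real J →
  P ((1 - l) * s + l * s') ≤ g1.real H

/-- LC. `G` is log-concave.
Proof: if `C` is convex then `(1-l) C_y + l C_{y'} ⊆ C_{(1-l) y + l y'}`, so by EHR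
`(1-l) A s + l A s' ⊆ A ((1-l) s + l s')`, `A s = {y | P s ≤ g1.real (sec C y)}`. The sets `A s` are
measurable (`measurable_measure_prodMk_left`). Gaussian Prékopa-Leindler
`Pool.Agent.H902R3.ZA.PLN_ok (PLA_ok LBM_ok)` (weight `1 - l`) applied to the three indicator
functions, with values in `ℝ≥0∞`, gives the claim (`ENNReal` powers to real powers). -/
def S_LC : Prop := ∀ (m : ℕ) (C : Set ((Fin m → ℝ) × ℝ)), Convex ℝ C → IsClosed C →
  ∀ s s' l : ℝ, 0 < l → l < 1 → GG C s ^ (1 - l) * GG C s' ^ l ≤ GG C ((1 - l) * s + l * s')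

/-- GAIN. The gain for one section.
Proof: let `R = κ + 1`. `I` meets `[-R, R]`: otherwise (`I` an interval) `I ⊆ Iio (-R)` or
`I ⊆ Ioi R`; `I` is nonempty as `P (-R) > 0`, closed, so it has a largest element `b < -R`
(resp. a least element) and `g1.real I ≤ P b < P (-R)`, a contradiction. `I` does not contain
`[-R, R]`: otherwise `g1.real I ≥ 1 - 2 P (-R) ≥ 1/2 > P (-κ)`. So there are `x ∈ I`, `z ∉ I`, both in
`[-R, R]`. Say `x < z` (the other case is symmetric): `b = sSup I ∈ [x, z] ∩ I`, `I ⊆ Iic b`, so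
`nb r I ⊇ I ∪ Ioc b (b + r)`, a disjoint union, and
`g1.real (Ioc b (b + r)) = P (b + r) - P b ≥ r * ph (κ + 2)` since `ph ≥ ph (κ + 2)` on
`[-(κ+2), κ+2] ⊇ [b, b + r]`. -/
def S_GAIN : Prop := ∀ (I : Set ℝ) (κ r : ℝ), Convex ℝ I → IsClosed I → 0 < κ → P (-κ) ≤ 1 / 4 →
  P (-(κ + 1)) ≤ g1.real I → g1.real I < P (-κ) → 0 < r → r ≤ 1 →
  g1.real I + r * ph (κ + 2) ≤ g1.real (nb r I)

/-- TAIL. `∫_{s < -t} (-t - s) dγ₁(s) ≤ Φ(-t) / t`.
Proof: the integral is `ph t - t * P (-t)` (as `(ph)' = - x ph x`; integrability clear), and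
`ph t - t * P (-t) ≤ P (-t) / t` is MILLS. -/
def S_TAIL : Prop := ∀ t : ℝ, 0 < t →
  ∫⁻ s in Iio (-t), ENNReal.ofReal (-t - s) ∂g1 ≤ ENNReal.ofReal (P (-t) / t)

/-- LOSS. Layer cake with respect to `Φ`.
Proof: `P` is a bijection of `ℝ` onto `(0,1)` and `g1 {s | P s < c} = ENNReal.ofReal c` for
`0 ≤ c ≤ 1`, so by Tonelli
`∫⁻_{g y < P (-t)} g y dμ = ∫⁻ s, μ {y | P s < g y ∧ g y < P (-t)} dγ₁(s)`; the inner measure
vanishes for `s ≥ -t` and is at most `ofReal (σ * (-t - s))` for `s < -t`; conclude by TAIL. -/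
def S_LOSS : Prop := ∀ (Y : Type) [MeasurableSpace Y] (μ : Measure Y) [IsProbabilityMeasure μ]
  (g : Y → ℝ) (t σ : ℝ), Measurable g → (∀ y, 0 ≤ g y) → (∀ y, g y ≤ 1) → 0 < t → 0 ≤ σ →
  (∀ s < -t, μ.real {y | P s ≤ g y ∧ g y < P (-t)} ≤ σ * (-t - s)) →
  ∫ y in {y | g y < P (-t)}, g y ∂μ ≤ σ * (P (-t) / t)

/-- DIFF. Increments of a log-concave nonincreasing function `G : ℝ → [0,1]`.
Proof: `0 < c ≤ G (-κ) ≤ G (-(κ+1)) ≤ G (-t) ≤ G s`. `L = log ∘ G` on `(-∞, -κ]` is concave, so its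
slopes decrease: `(L (-t) - L s) / (-t - s) ≥ (L (-κ) - L (-(κ+1))) / 1` (three points: apply the
hypothesis twice), i.e. `L s - L (-t) ≤ (L (-(κ+1)) - L (-κ)) (-t - s)`. Finally
`G s - G (-t) ≤ L s - L (-t)` (`log (b/a) ≤ b/a - 1`, `G ≤ 1`) and
`L (-(κ+1)) - L (-κ) ≤ (G (-(κ+1)) - G (-κ)) / G (-κ)`. -/
def S_DIFF : Prop := ∀ (G : ℝ → ℝ) (κ t c : ℝ), Antitone G → (∀ s, 0 ≤ G s) → (∀ s, G s ≤ 1) →
  (∀ s s' l : ℝ, 0 < l → l < 1 → G s ^ (1 - l) * G s' ^ l ≤ G ((1 - l) * s + l * s')) →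
  0 < c → c ≤ G (-κ) → κ + 1 ≤ t → ∀ s < -t,
  G s - G (-t) ≤ (G (-(κ + 1)) - G (-κ)) / c * (-t - s)

/-- CORE. The inequality in coordinates, for `r` with `P (-t) = g1 (Icc (-r) r)`.
Proof: `μ = gm m`, `g y = g1.real (sec C y)`, `g' y = g1.real (nb r (sec C y))`, both measurable
(`C` and `{z | z.2 ∈ nb r (sec C z.1)}` are closed: the latter is the image of `C × [-r,r]` under a
proper map, or: `C` closed plus compact). `(μ.prod g1).real C = ∫ g`, and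
`(μ.prod g1).real (circc C r) = ∫_{P (-t) ≤ g} g'`, `g ≤ g'`. First `p ≤ ∫ g ≤ G (-κ) + P (-κ)`
(`G = GG C`), so `G (-κ) ≥ 3 p / 4 =: c`. `G` is antitone with values in `[0,1]`, log-concave by LC.
For `s < -t`, `μ.real {y | P s ≤ g y ∧ g y < P (-t)} = G s - G (-t) ≤ σ (-t - s)` with
`σ = (G (-(κ+1)) - G (-κ)) / c`, by DIFF. By LOSS
`∫_{g < P (-t)} g ≤ σ P (-t) / t ≤ σ r / t`, as `P (-t) = g1.real (Icc (-r) r) = P r - P (-r) ≤ 2 r ph 0 ≤ r`.
By GAIN, `g' - g ≥ r ph (κ+2)` on `{P (-(κ+1)) ≤ g < P (-κ)} ⊆ {P (-t) ≤ g}`, a set of measure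
`G (-(κ+1)) - G (-κ)`. So
`∫_{P (-t) ≤ g} g' - ∫ g ≥ r (G (-(κ+1)) - G (-κ)) (ph (κ+2) - 1 / (c t)) ≥ 0`. -/
def S_CORE : Prop := ∀ (m : ℕ) (C : Set ((Fin m → ℝ) × ℝ)) (p κ t r : ℝ), Convex ℝ C →
  IsClosed C → 0 < p → p ≤ ((gm m).prod g1).real C → 0 < κ → P (-κ) = p / 4 → κ + 1 ≤ t →
  4 / (3 * p * ph (κ + 2)) ≤ t → 0 < r → r ≤ 1 → P (-t) = g1.real (Icc (-r) r) →
  ((gm m).prod g1).real C ≤ ((gm m).prod g1).real (circc C r)

/-- RHO. The threshold.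
Proof: for `0 < p < 1` there is `κ > 0` with `P (-κ) = p / 4` (intermediate values, PHI;
`P 0 = 1/2 > 1/4`). Let `T = max (κ+1) (4 / (3 p ph (κ+2)))`, `ρ = min 1 (P (-T))`. For
`0 < r ≤ ρ`: `0 < g1.real (Icc (-r) r) = P r - P (-r) ≤ r ≤ P (-T)` (`ph ≤ ph 0 ≤ 1/2`), so there is
`t` with `P (-t) = g1.real (Icc (-r) r)` (intermediate values) and `t ≥ T` (monotonicity). Apply
CORE. -/
def S_RHO : Prop := ∀ p : ℝ, 0 < p → p < 1 → ∃ ρ : ℝ, 0 < ρ ∧ ∀ (m : ℕ)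
  (C : Set ((Fin m → ℝ) × ℝ)), Convex ℝ C → IsClosed C → p ≤ ((gm m).prod g1).real C →
  ∀ r : ℝ, 0 < r → r ≤ ρ → ((gm m).prod g1).real C ≤ ((gm m).prod g1).real (circc C r)

/-- TR. Orthonormal coordinates with last axis `u / ‖u‖`.
Proof: take an orthonormal basis `b` of `E (m+1)` indexed by `Fin (m+1)` with
`b (Fin.last m) = u / ‖u‖` (or `b 0`; e.g. `Orthonormal.exists_orthonormalBasis_extension_of_card_eq`),
`T (y, s) = ∑ i, y i • b i.castSucc + s • b (Fin.last m)`; Mathlib's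
`stdGaussian_eq_map_pi_orthonormalBasis` and `measurePreserving_piFinSuccAbove`
(for `Fin.last m` or `0`, with `Prod.swap`) give the last statement. -/
def S_TR : Prop := ∀ (m : ℕ) (u : E (m + 1)), u ≠ 0 →
  ∃ T : ((Fin m → ℝ) × ℝ) ≃L[ℝ] E (m + 1),
    (∀ s : ℝ, T (0, s) = (s / ‖u‖) • u) ∧ (∀ y, ⟪T (y, 0), u⟫_ℝ = 0) ∧
    Measure.map T ((gm m).prod g1) = stdGaussian (E (m + 1))

/-- PULL. The transform in coordinates.
Proof: `u ≠ 0`, `T (y, s) = T (y, 0) + (s / ‖u‖) • u`. `sec (T ⁻¹' K) y = Sec K u (T (y, 0))`. A point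
`T (y, s) = k + τ u` with `k = T (y', s')`: `y = y'`, `s = s' + τ ‖u‖` (injectivity). Every vector
orthogonal to `u` is some `T (y, 0)`. So `T ⁻¹' (circ K u) = circc (T ⁻¹' K) ‖u‖`. -/
def S_PULL : Prop := ∀ (m : ℕ) (u : E (m + 1)), u ≠ 0 → ∀ K : Set (E (m + 1)),
  ∀ T : ((Fin m → ℝ) × ℝ) ≃L[ℝ] E (m + 1),
    (∀ s : ℝ, T (0, s) = (s / ‖u‖) • u) → (∀ y, ⟪T (y, 0), u⟫_ℝ = 0) →
    T ⁻¹' (circ K u) = circc (T ⁻¹' K) ‖u‖

/-- FIN. The answer.
Proof: for `0 < p < 1` let `Adm p ρ` be: for all `n ≥ 2`, closed convex `K` in `E n` with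
`p ≤ γ(K)` and `‖u‖ ≤ ρ`, `γ(K) ≤ γ(K ∘ u)`. By RHO, TR, PULL each `p ∈ (0,1)` has an
admissible `ρ > 0` (the measure of a preimage under the homeomorphism `T`; `n = m + 1`; for `u = 0`
the transform is `K`). `Adm` is monotone in `p` and antitone in `ρ`. Let
`R p = sSup {ρ | 0 < ρ ∧ ρ ≤ 1 ∧ Adm p ρ} ∈ (0,1]`, nondecreasing, and `r p = p * R p < R p`, which is
admissible, positive, strictly increasing. -/
def S_FIN : Prop := ∃ r : ℝ → ℝ, (∀ p ∈ Ioo (0 : ℝ) 1, 0 < r p) ∧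
  StrictMonoOn r (Ioo 0 1) ∧ ∀ (n : ℕ), 2 ≤ n → ∀ K : Set (E n), Convex ℝ K → IsClosed K →
    0 < stdGaussian (E n) K → stdGaussian (E n) K < 1 →
    ∀ u : E n, ‖u‖ ≤ r (stdGaussian (E n) K).toReal →
      stdGaussian (E n) K ≤ stdGaussian (E n) (circ K u)

end Pool.Agent.Q264.GM
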