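import Pool.Agent.H902R3.ZA.PLN
import Pool.Agent.H902R3.ZA.PLA
import Pool.Agent.H902R3.ZA.LBM

/-!
# Monotonicity of the Gaussian measure under the modified Banaszczyk transform: definitions
-/

set_option autoImplicit false

open MeasureTheory ProbabilityTheory Set Filter Topology
open scoped InnerProductSpace ENNReal

namespace Pool.Agent.Q264.GM

/-- `ℝⁿ` -/
abbrev E (n : ℕ) := EuclideanSpace ℝ (Fin n)

/-- `γ₁`, the standard Gaussian measure of the line -/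
noncomputable abbrev g1 : Measure ℝ := gaussianReal 0 1

/-- `γ_m` in coordinates: the `m`-fold power of `γ₁` -/
noncomputable abbrev gm (m : ℕ) : Measure (Fin m → ℝ) := Pool.Agent.H902R3.ZA.gm m

/-- `Φ`, the distribution function -/
noncomputable def P (x : ℝ) : ℝ := g1.real (Iic x)

/-- `φ`, the density -/
noncomputable def ph (x : ℝ) : ℝ := (√(2 * Real.pi))⁻¹ * Real.exp (-x ^ 2 / 2)

/-! ### the problem -/

/-- `I_y` -/
def Sec {n : ℕ} (K : Set (E n)) (u y : E n) : Set ℝ := {s | y + (s / ‖u‖) • u ∈ K}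

/-- `Z_K(u)` -/
def Zset {n : ℕ} (K : Set (E n)) (u : E n) : Set (E n) :=
  {y | ⟪y, u⟫_ℝ = 0 ∧ g1 (Icc (-‖u‖) ‖u‖) ≤ g1 (Sec K u y)}

open Classical in
/-- `K ∘ u` -/
noncomputable def circ {n : ℕ} (K : Set (E n)) (u : E n) : Set (E n) :=
  if u = 0 then K else
    {x | ∃ k ∈ K, ∃ τ ∈ Icc (-1 : ℝ) 1, x = k + τ • u} ∩
      {x | ∃ y ∈ Zset K u, ∃ s : ℝ, x = y + s • u}

/-! ### the coordinates `(y, s)` of `(Fin m → ℝ) × ℝ` -/

/-- the section of `C` at `y` -/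
def sec {m : ℕ} (C : Set ((Fin m → ℝ) × ℝ)) (y : Fin m → ℝ) : Set ℝ := {s | (y, s) ∈ C}

/-- the `r`-neighbourhood of a set of the line -/
def nb (r : ℝ) (I : Set ℝ) : Set ℝ := {s | ∃ τ ∈ Icc (-r) r, s - τ ∈ I}

/-- the transform in coordinates -/
def circc {m : ℕ} (C : Set ((Fin m → ℝ) × ℝ)) (r : ℝ) : Set ((Fin m → ℝ) × ℝ) :=
  {z | g1 (Icc (-r) r) ≤ g1 (sec C z.1) ∧ z.2 ∈ nb r (sec C z.1)}

/-- `G(s) = γ_m {y | γ₁ (C_y) ≥ Φ(s)}` -/
noncomputable def GG {m : ℕ} (C : Set ((Fin m → ℝ) × ℝ)) (s : ℝ) : ℝ :=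
  (gm m).real {y | P s ≤ g1.real (sec C y)}

end Pool.Agent.Q264.GM
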