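import Pool.Agent.Q264.GM.PHI

set_option autoImplicit false

open MeasureTheory ProbabilityTheory Set Filter Topology
open scoped InnerProductSpace ENNReal

namespace Pool.Agent.Q264.GM

theorem t_DIFF : S_DIFF := by
  intro G κ t c hanti h0 h1 hlc hc hcG hκt s hs
  set D := G (-(κ + 1)) - G (-κ) with hD
  have hmon : ∀ a b, a ≤ b → G b ≤ G a := fun a b h => hanti h
  have e1 : c ≤ G (-(κ + 1)) := hcG.trans (hmon _ _ (by linarith))
  have e2 : G (-(κ + 1)) ≤ G (-t) := hmon _ _ (by linarith)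
  have e3 : G (-t) ≤ G s := hmon _ _ (by linarith)
  have p0 : 0 < G (-κ) := by linarith
  have p1 : 0 < G (-(κ + 1)) := by linarith
  have p2 : 0 < G (-t) := by linarith
  have p3 : 0 < G s := by linarith
  -- log concavity
  have hL : ∀ a b l : ℝ, 0 < l → l < 1 → 0 < G a → 0 < G b →
      (1 - l) * Real.log (G a) + l * Real.log (G b) ≤ Real.log (G ((1 - l) * a + l * b)) := by
    intro a b l hl hl1 ha hb
    have := Real.log_le_log (by positivity) (hlc a b l hl hl1)
    rw [Real.log_mul (by positivity) (by positivity), Real.log_rpow ha, Real.log_rpow hb] at this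
    exact this
  -- slopes : three points x < y < z
  have hS : ∀ x y z : ℝ, x < y → y < z → 0 < G x → 0 < G z →
      (z - y) * Real.log (G x) + (y - x) * Real.log (G z) ≤ (z - x) * Real.log (G y) := by
    intro x y z hxy hyz hx hz
    have hzx : 0 < z - x := by linarith
    have h := hL x z ((y - x) / (z - x)) (div_pos (by linarith) hzx)
      ((div_lt_one hzx).2 (by linarith)) hx hz
    have e : (1 - (y - x) / (z - x)) * x + (y - x) / (z - x) * z = y := by
      field_simp; ring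
    rw [e] at h
    have h2 := mul_le_mul_of_nonneg_left h hzx.le
    have e' : (z - x) * ((1 - (y - x) / (z - x)) * Real.log (G x) +
        (y - x) / (z - x) * Real.log (G z)) =
        (z - y) * Real.log (G x) + (y - x) * Real.log (G z) := by
      field_simp; ring
    linarith
  set Ls := Real.log (G s)
  set Lt := Real.log (G (-t))
  set L1 := Real.log (G (-(κ + 1)))
  set L0 := Real.log (G (-κ))
  -- slope from s to -t is at least slope from -(κ+1) to -κ
  have hslope : Ls - Lt ≤ (L1 - L0) * (-t - s) := by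
    rcases hκt.eq_or_lt with h | h
    · -- t = κ + 1
      have e : -t = -(κ + 1) := by rw [h]
      have hLt : Lt = L1 := by simp only [Lt, L1, e]
      have := hS s (-(κ + 1)) (-κ) (by linarith) (by linarith) p3 p0
      change (-κ - -(κ + 1)) * Ls + (-(κ + 1) - s) * L0 ≤ (-κ - s) * L1 at this
      rw [hLt, e]
      nlinarith
    · have a1 := hS s (-t) (-(κ + 1)) hs (by linarith) p3 p1
      have a2 := hS (-t) (-(κ + 1)) (-κ) (by linarith) (by linarith) p2 p0
      change (-(κ + 1) - -t) * Ls + (-t - s) * L1 ≤ (-(κ + 1) - s) * Lt at a1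
      change (-κ - -(κ + 1)) * Lt + (-(κ + 1) - -t) * L0 ≤ (-κ - -t) * L1 at a2
      have hw : 0 < -(κ + 1) - -t := by linarith
      have hv : 0 < -t - s := by linarith
      -- a1 : w Ls + v L1 ≤ (w + v) Lt, so w (Ls - Lt) ≤ v (Lt - L1)
      -- a2 : Lt + w L0 ≤ (1 + w) L1, so Lt - L1 ≤ w (L1 - L0)
      have b2 : Lt - L1 ≤ (-(κ + 1) - -t) * (L1 - L0) := by nlinarith
      have b1 : (-(κ + 1) - -t) * (Ls - Lt) ≤ (-t - s) * (Lt - L1) := by nlinarith
      have b3 := mul_le_mul_of_nonneg_left b2 hv.le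
      have b4 : (-(κ + 1) - -t) * (Ls - Lt) ≤
          (-(κ + 1) - -t) * ((L1 - L0) * (-t - s)) := by nlinarith
      exact le_of_mul_le_mul_left b4 hw
  -- G s - G (-t) ≤ Ls - Lt
  have k1 : G s - G (-t) ≤ Ls - Lt := by
    have : Real.log (G (-t) / G s) ≤ G (-t) / G s - 1 := Real.log_le_sub_one_of_pos (by positivity)
    rw [Real.log_div p2.ne' p3.ne'] at this
    have h2 : G s - G (-t) ≤ 1 - G (-t) / G s := by
      rw [le_sub_iff_add_le, ← le_sub_iff_add_le', div_le_iff₀ p3]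
      have := h1 s
      nlinarith
    simp only [Ls, Lt]
    linarith
  have k2 : L1 - L0 ≤ D / c := by
    have : Real.log (G (-(κ + 1)) / G (-κ)) ≤ G (-(κ + 1)) / G (-κ) - 1 :=
      Real.log_le_sub_one_of_pos (by positivity)
    rw [Real.log_div p1.ne' p0.ne'] at this
    have hDn : 0 ≤ D := by
      have := hmon (-(κ + 1)) (-κ) (by linarith)
      simp only [hD]; linarith
    have h2 : G (-(κ + 1)) / G (-κ) - 1 = D / G (-κ) := by
      simp only [hD]; field_simp
    have h3 : D / G (-κ) ≤ D / c := div_le_div_of_nonneg_left hDn hc hcG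
    simp only [L1, L0]
    linarith
  calc G s - G (-t) ≤ Ls - Lt := k1
    _ ≤ (L1 - L0) * (-t - s) := hslope
    _ ≤ D / c * (-t - s) := by
        apply mul_le_mul_of_nonneg_right k2; linarith

theorem ph_le_half (x : ℝ) : ph x ≤ 1 / 2 := by
  unfold ph
  have h1 : (√(2 * Real.pi))⁻¹ ≤ 1 / 2 := by
    rw [one_div]
    apply inv_anti₀ (by norm_num)
    rw [Real.le_sqrt (by norm_num) (by positivity)]
    nlinarith [Real.pi_gt_three]
  have h2 : Real.exp (-x ^ 2 / 2) ≤ 1 := by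
    apply Real.exp_le_one_iff.2; nlinarith [sq_nonneg x]
  have h3 := (Real.exp_pos (-x ^ 2 / 2)).le
  calc (√(2 * Real.pi))⁻¹ * Real.exp (-x ^ 2 / 2) ≤ 1 / 2 * 1 := by
        apply mul_le_mul h1 h2 h3 (by norm_num)
    _ = 1 / 2 := by norm_num

theorem Icc_le (r : ℝ) (hr : 0 ≤ r) : g1.real (Icc (-r) r) ≤ r := by
  rw [g1_real _ measurableSet_Icc]
  have : ∫ x in Icc (-r) r, ph x ≤ ∫ x in Icc (-r) r, (1 / 2 : ℝ) := by
    exact setIntegral_mono ph_int.integrableOn continuous_const.integrableOn_Icc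
      (fun x => ph_le_half x)
  refine this.trans ?_
  rw [setIntegral_const]
  simp only [measureReal_def, Real.volume_Icc, smul_eq_mul]
  rw [ENNReal.toReal_ofReal (by linarith)]
  linarith

theorem exists_P (hPHI : S_PHI) {v : ℝ} (h0 : 0 < v) (h1 : v < 1) : ∃ x, P x = v := by
  obtain ⟨hd, hm, -, -, -, hbot, htop, -, -⟩ := hPHI
  have hc : Continuous P := continuous_iff_continuousAt.2 fun x => (hd x).continuousAt
  obtain ⟨a, ha⟩ := (hbot.eventually (gt_mem_nhds h0)).exists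
  obtain ⟨b, hb⟩ := (htop.eventually (lt_mem_nhds h1)).exists
  have := mem_range_of_exists_le_of_exists_ge hc ⟨a, ha.le⟩ ⟨b, hb.le⟩
  exact this

theorem t_RHO (hPHI : S_PHI) (hC : S_CORE) : S_RHO := by
  intro p hp hp1
  have hm := hPHI.2.1
  have hpos := hPHI.2.2.1
  have hlt1 := hPHI.2.2.2.1
  have hsym := hPHI.2.2.2.2.1
  obtain ⟨x, hx⟩ := exists_P hPHI (by linarith : 0 < p / 4) (by linarith : p / 4 < 1)
  have hx0 : x < 0 := by
    by_contra h
    have h1 : P 0 ≤ P x := hm.monotone (by linarith)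
    have h2 := hsym 0
    rw [neg_zero] at h2
    linarith
  set κ := -x with hκ
  have hκ0 : 0 < κ := by linarith
  have hPκ : P (-κ) = p / 4 := by simp [hκ, hx]
  set T := max (κ + 1) (4 / (3 * p * ph (κ + 2))) with hT
  refine ⟨min 1 (P (-T)), lt_min one_pos (hpos _), ?_⟩
  intro m C hCc hCl hpC r hr hrρ
  have hr1 : r ≤ 1 := hrρ.trans (min_le_left _ _)
  have hrP : r ≤ P (-T) := hrρ.trans (min_le_right _ _)
  have hI := hPHI.2.2.2.2.2.2.2.1 (-r) r (by linarith)
  have hI0 : 0 < g1.real (Icc (-r) r) := by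
    rw [hI]
    have : P (-r) < P r := hm (by linarith)
    linarith
  have hI1 : g1.real (Icc (-r) r) < 1 := by
    rw [hI]
    have := hpos (-r)
    have := hlt1 r
    linarith
  obtain ⟨y, hy⟩ := exists_P hPHI hI0 hI1
  have hyT : y ≤ -T := by
    rw [← hm.le_iff_le, hy]
    exact (Icc_le r hr.le).trans hrP
  have ht1 : κ + 1 ≤ -y := by
    have := le_max_left (κ + 1) (4 / (3 * p * ph (κ + 2)))
    linarith
  have ht2 : 4 / (3 * p * ph (κ + 2)) ≤ -y := by
    have := le_max_right (κ + 1) (4 / (3 * p * ph (κ + 2)))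
    linarith
  exact hC m C p κ (-y) r hCc hCl hp hpC hκ0 hPκ ht1 ht2 hr hr1 (by rw [neg_neg, hy])


/-- admissibility of the threshold `ρ` at the level `p` -/
def Adm (p ρ : ℝ) : Prop := ∀ (n : ℕ), 2 ≤ n → ∀ K : Set (E n), Convex ℝ K → IsClosed K →
  p ≤ (stdGaussian (E n)).real K → ∀ u : E n, ‖u‖ ≤ ρ →
    stdGaussian (E n) K ≤ stdGaussian (E n) (circ K u)

theorem adm_exists (hR : S_RHO) (hT : S_TR) (hP : S_PULL) {p : ℝ} (hp : 0 < p) (hp1 : p < 1) :
    ∃ ρ, 0 < ρ ∧ ρ ≤ 1 ∧ Adm p ρ := by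
  obtain ⟨ρ, hρ, h⟩ := hR p hp hp1
  refine ⟨min ρ 1, lt_min hρ one_pos, min_le_right _ _, ?_⟩
  intro n hn K hKc hKl hpK u hu
  by_cases hu0 : u = 0
  · subst hu0
    simp [circ]
  obtain ⟨m, rfl⟩ : ∃ m, n = m + 1 := ⟨n - 1, by omega⟩
  obtain ⟨T, hT1, hT2, hT3⟩ := hT m u hu0
  have hpull := hP m u hu0 K T hT1 hT2
  have hmeas : ∀ S : Set (E (m + 1)), stdGaussian (E (m + 1)) S = ((gm m).prod g1) (T ⁻¹' S) := by
    intro S
    rw [← hT3]
    exact (T.toHomeomorph.toMeasurableEquiv.measurableEmbedding.map_apply _ _)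
  have hC : Convex ℝ (T ⁻¹' K) := hKc.linear_preimage T.toLinearEquiv.toLinearMap
  have hCl : IsClosed (T ⁻¹' K) := hKl.preimage T.continuous
  have h1 : p ≤ ((gm m).prod g1).real (T ⁻¹' K) := by
    rw [measureReal_def, ← hmeas, ← measureReal_def]; exact hpK
  have hn0 : 0 < ‖u‖ := norm_pos_iff.2 hu0
  have := h m (T ⁻¹' K) hC hCl h1 ‖u‖ hn0 (hu.trans (min_le_left _ _))
  rw [← hpull, measureReal_def, measureReal_def, ← hmeas, ← hmeas] at this
  exact (ENNReal.toReal_le_toReal (measure_ne_top _ _) (measure_ne_top _ _)).1 this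

theorem t_FIN (hR : S_RHO) (hT : S_TR) (hP : S_PULL) : S_FIN := by
  set S : ℝ → Set ℝ := fun p => {ρ | 0 < ρ ∧ ρ ≤ 1 ∧ Adm p ρ} with hS
  set R : ℝ → ℝ := fun p => sSup (S p) with hRdef
  have hbdd : ∀ p, BddAbove (S p) := fun p => ⟨1, fun ρ h => h.2.1⟩
  have hne : ∀ p ∈ Ioo (0 : ℝ) 1, (S p).Nonempty := by
    intro p hp
    obtain ⟨ρ, h⟩ := adm_exists hR hT hP hp.1 hp.2
    exact ⟨ρ, h⟩
  have hRpos : ∀ p ∈ Ioo (0 : ℝ) 1, 0 < R p := by
    intro p hp
    obtain ⟨ρ, h⟩ := hne p hp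
    exact lt_of_lt_of_le h.1 (le_csSup (hbdd p) h)
  have hRmono : ∀ p ∈ Ioo (0 : ℝ) 1, ∀ q ∈ Ioo (0 : ℝ) 1, p ≤ q → R p ≤ R q := by
    intro p hp q hq hpq
    apply csSup_le_csSup (hbdd q) (hne p hp)
    intro ρ h
    exact ⟨h.1, h.2.1, fun n hn K hKc hKl hpK u hu => h.2.2 n hn K hKc hKl (hpq.trans hpK) u hu⟩
  refine ⟨fun p => p * R p, fun p hp => mul_pos hp.1 (hRpos p hp), ?_, ?_⟩
  · intro p hp q hq hpq
    have h1 := hRmono p hp q hq hpq.le
    have h2 := hRpos p hp
    have h3 := hp.1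
    show p * R p < q * R q
    nlinarith
  · intro n hn K hKc hKl h0 h1 u hu
    set p := (stdGaussian (E n) K).toReal with hp
    have hpI : p ∈ Ioo (0 : ℝ) 1 := by
      constructor
      · exact ENNReal.toReal_pos h0.ne' (measure_ne_top _ _)
      · rw [hp, ← ENNReal.toReal_one]
        exact (ENNReal.toReal_lt_toReal (measure_ne_top _ _) (by simp)).2 h1
    have hlt : p * R p < R p := by
      have := hRpos p hpI
      have := hpI.2
      nlinarith
    obtain ⟨ρ, hρ, hlt2⟩ := exists_lt_of_lt_csSup (hne p hpI) hlt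
    exact hρ.2.2 n hn K hKc hKl (by rw [measureReal_def]) u (hu.trans hlt2.le)

end Pool.Agent.Q264.GM
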