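import Pool.Agent.Q264.GM.PHI

set_option autoImplicit false

open MeasureTheory ProbabilityTheory Set Filter Topology
open scoped InnerProductSpace ENNReal

namespace Pool.Agent.Q264.GM

theorem ph_deriv (x : ℝ) : HasDerivAt ph (-x * ph x) x := by
  unfold ph
  have h : HasDerivAt (fun x : ℝ => -x ^ 2 / 2) (-x) x := by
    have := ((hasDerivAt_id x).pow 2).neg.div_const 2
    refine this.congr_deriv ?_
    simp; ring
  refine (h.exp.const_mul _).congr_deriv ?_
  ring

theorem ph_neg (x : ℝ) : ph (-x) = ph x := by
  unfold ph; simp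

/-- `T x = Φ(-x)` has derivative `-φ` -/
theorem T_deriv (hPHI : S_PHI) (x : ℝ) : HasDerivAt (fun x => P (-x)) (-ph x) x := by
  have := (hPHI.1 (-x)).comp x (hasDerivAt_neg x)
  rw [ph_neg] at this
  exact HasDerivAt.congr_deriv (f := fun x => P (-x)) this (by ring)

theorem t_MILLS (hPHI : S_PHI) : S_MILLS := by
  intro x hx
  set f : ℝ → ℝ := fun x => P (-x) - x * ph x / (1 + x ^ 2) with hf
  have hd : ∀ x, HasDerivAt f (- 2 * ph x / (1 + x ^ 2) ^ 2) x := by
    intro x
    have h0 : (1 + x ^ 2) ≠ 0 := by positivity
    have h1 : HasDerivAt (fun x : ℝ => 1 + x ^ 2) (2 * x) x := by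
      have := ((hasDerivAt_id x).pow 2).const_add 1
      refine this.congr_deriv ?_
      simp
    have h2 : HasDerivAt (fun x : ℝ => x * ph x) (ph x + x * (-x * ph x)) x := by
      have := (hasDerivAt_id x).mul (ph_deriv x)
      refine this.congr_deriv ?_
      simp
    refine ((T_deriv hPHI x).sub (h2.div h1 h0)).congr_deriv ?_
    field_simp
    ring
  have hanti : Antitone f := by
    apply antitone_of_deriv_nonpos (fun x => (hd x).differentiableAt)
    intro x
    rw [(hd x).deriv]
    have := ph_pos x
    have : 0 ≤ 2 * ph x / (1 + x ^ 2) ^ 2 := by positivity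
    have e : - 2 * ph x / (1 + x ^ 2) ^ 2 = -(2 * ph x / (1 + x ^ 2) ^ 2) := by ring
    rw [e]; linarith
  -- the limit
  have hbd : ∀ y, 1 ≤ y → |y * ph y / (1 + y ^ 2)| ≤ 1 / y := by
    intro y hy
    have hp := ph_pos y
    have hle : ph y ≤ 1 := by
      unfold ph
      have h1 : (√(2 * Real.pi))⁻¹ ≤ 1 := by
        apply inv_le_one_of_one_le₀
        rw [Real.one_le_sqrt]
        nlinarith [Real.pi_gt_three]
      have h2 : Real.exp (-y ^ 2 / 2) ≤ 1 := by
        apply Real.exp_le_one_iff.2; nlinarith
      have h3 := (Real.exp_pos (-y ^ 2 / 2)).le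
      calc (√(2 * Real.pi))⁻¹ * Real.exp (-y ^ 2 / 2) ≤ 1 * 1 := by
            apply mul_le_mul h1 h2 h3 (by norm_num)
        _ = 1 := by norm_num
    rw [abs_of_nonneg (by positivity), div_le_div_iff₀ (by positivity) (by positivity)]
    nlinarith [mul_pos (by linarith : 0 < y) (by linarith : 0 < y)]
  have hlim : Tendsto f atTop (𝓝 (0 - 0)) := by
    apply Tendsto.sub
    · exact hPHI.2.2.2.2.2.1.comp tendsto_neg_atTop_atBot
    · apply squeeze_zero_norm' (a := fun y => 1 / y)
      · filter_upwards [eventually_ge_atTop 1] with y hy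
        exact hbd y hy
      · exact tendsto_const_nhds.div_atTop tendsto_id
  have h0 : 0 ≤ f x := by
    have hge : 0 - 0 ≤ f x := by
      apply le_of_tendsto hlim
      filter_upwards [eventually_ge_atTop x] with y hy
      exact hanti hy
    linarith
  have h1 : 0 < 1 + x ^ 2 := by positivity
  have h2 : x * ph x / (1 + x ^ 2) ≤ P (-x) := by simpa [hf] using h0
  rw [div_le_iff₀ h1] at h2
  linarith

theorem t_LEM (hPHI : S_PHI) (hM : S_MILLS) : S_LEM := by
  intro x y z hx hy hz hT
  have hmono := hPHI.2.1
  have hpos := hPHI.2.2.1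
  have hzx : z < x := by
    by_contra h
    have : P (-z) ≤ P (-x) := hmono.monotone (by linarith)
    have := hpos (-y)
    linarith
  have hzy : z < y := by
    by_contra h
    have : P (-z) ≤ P (-y) := hmono.monotone (by linarith)
    have := hpos (-x)
    linarith
  set h : ℝ → ℝ := fun x => ph x / (x * P (-x)) with hh
  have hanti : AntitoneOn h (Ioi 0) := by
    have hd : ∀ x ∈ Ioi (0 : ℝ), HasDerivAt h ((-x * ph x * (x * P (-x)) -
        ph x * (P (-x) + x * (-ph x))) / (x * P (-x)) ^ 2) x := by
      intro x hx
      have h2 : HasDerivAt (fun x : ℝ => x * P (-x)) (P (-x) + x * (-ph x)) x := by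
        have := (hasDerivAt_id x).mul (T_deriv hPHI x)
        refine this.congr_deriv ?_
        simp
      exact (ph_deriv x).div h2 (mul_pos hx (hpos _)).ne'
    apply antitoneOn_of_deriv_nonpos (convex_Ioi 0)
    · intro x hx
      exact (hd x hx).continuousAt.continuousWithinAt
    · rw [interior_Ioi]
      intro x hx
      exact (hd x hx).differentiableAt.differentiableWithinAt
    · rw [interior_Ioi]
      intro x hx
      rw [(hd x hx).deriv]
      apply div_nonpos_of_nonpos_of_nonneg _ (sq_nonneg _)
      have h1 := hM x hx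
      have h2 := ph_pos x
      have : -x * ph x * (x * P (-x)) - ph x * (P (-x) + x * (-ph x)) =
        ph x * (x * ph x - (1 + x ^ 2) * P (-x)) := by ring
      rw [this]
      apply mul_nonpos_of_nonneg_of_nonpos h2.le
      linarith
  have e : ∀ w, 0 < w → ph w / w = h w * P (-w) := by
    intro w hw
    have := (hpos (-w)).ne'
    simp only [hh]
    field_simp
  rw [e x hx, e y hy, e z hz, hT]
  have h1 : h x ≤ h z := hanti hz hx hzx.le
  have h2 : h y ≤ h z := hanti hz hy hzy.le
  have := hpos (-x)
  have := hpos (-y)
  nlinarith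

theorem q_mono : StrictMono (fun x : ℝ => x / ph x) := by
  have hd : ∀ x : ℝ, HasDerivAt (fun x : ℝ => x / ph x)
      ((1 * ph x - x * (-x * ph x)) / (ph x) ^ 2) x := by
    intro x
    exact (hasDerivAt_id x).div (ph_deriv x) (ph_pos x).ne'
  apply strictMono_of_deriv_pos
  intro x
  rw [(hd x).deriv]
  have := ph_pos x
  have e : 1 * ph x - x * (-x * ph x) = ph x * (1 + x ^ 2) := by ring
  rw [e]
  positivity

theorem t_QF (hPHI : S_PHI) (hL : S_LEM) : S_QF := by
  intro x y z hT X Y
  have hmono := hPHI.2.1
  have hpos := hPHI.2.2.1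
  have hsym := hPHI.2.2.2.2.1
  have hzx : z < x := by
    by_contra h
    have : P (-z) ≤ P (-x) := hmono.monotone (by linarith)
    have := hpos (-y)
    linarith
  have hzy : z < y := by
    by_contra h
    have : P (-z) ≤ P (-y) := hmono.monotone (by linarith)
    have := hpos (-x)
    linarith
  set q : ℝ → ℝ := fun x => x / ph x with hq
  have hqzx : q z ≤ q x := (q_mono hzx).le
  have hqzy : q z ≤ q y := (q_mono hzy).le
  have hq0 : ∀ w, 0 < w → 0 < q w := fun w hw => div_pos hw (ph_pos w)
  have hqn : ∀ w, q (-w) = - q w := by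
    intro w; simp only [hq, ph_neg]; ring
  have hinv : ∀ w, ph w / w = 1 / q w := by
    intro w; simp only [hq, one_div_div]
  -- LEM in the form of `q`
  have hLq : ∀ x y z : ℝ, 0 < x → 0 < y → 0 < z → P (-z) = P (-x) + P (-y) →
      q z * (q x + q y) ≤ q x * q y := by
    intro x y z hx hy hz h
    have := hL x y z hx hy hz h
    rw [hinv, hinv, hinv] at this
    have h1 := hq0 x hx
    have h2 := hq0 y hy
    have h3 := hq0 z hz
    rw [div_add_div _ _ h1.ne' h2.ne', div_le_div_iff₀ (by positivity) h3] at this
    nlinarith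
  have key : q z * (q x + q y) ≤ q x * q y := by
    rcases lt_or_ge 0 z with hz | hz
    · exact hLq x y z (by linarith) (by linarith) hz hT
    · have hqz : q z ≤ 0 := by
        have := q_mono.monotone hz
        simpa using this
      rcases lt_or_ge x 0 with hx | hx
      · -- x < 0 < y
        have h1 : P (- -x) = P (- -z) + P (-y) := by
          have e1 := hsym (-x)
          have e2 := hsym (-z)
          linarith
        have hy : 0 < y := by
          by_contra h
          have h3 : P 0 ≤ P (-y) := hmono.monotone (by linarith)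
          have h4 : P 0 < P (-x) := hmono (by linarith)
          have h5 := hsym 0
          rw [neg_zero] at h5
          have h6 := hPHI.2.2.2.1 (-z)
          linarith
        have := hLq (-z) y (-x) (by linarith) hy (by linarith) h1
        rw [hqn, hqn] at this
        nlinarith
      · rcases lt_or_ge y 0 with hy | hy
        · have h1 : P (- -y) = P (-x) + P (- -z) := by
            have e1 := hsym (-y)
            have e2 := hsym (-z)
            linarith
          have hx : 0 < x := by
            by_contra h
            have h3 : P 0 ≤ P (-x) := hmono.monotone (by linarith)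
            have h4 : P 0 < P (-y) := hmono (by linarith)
            have h5 := hsym 0
            rw [neg_zero] at h5
            have h6 := hPHI.2.2.2.1 (-z)
            linarith
          have := hLq x (-z) (-y) hx (by linarith) (by linarith) h1
          rw [hqn, hqn] at this
          nlinarith
        · have h1 : 0 ≤ q x := by
            have := q_mono.monotone hx
            simpa using this
          have h2 : 0 ≤ q y := by
            have := q_mono.monotone hy
            simpa using this
          have h3 : q z * (q x + q y) ≤ 0 := mul_nonpos_of_nonpos_of_nonneg hqz (by linarith)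
          have h4 : 0 ≤ q x * q y := mul_nonneg h1 h2
          linarith
  change q z * (Y - X) ^ 2 ≤ q x * X ^ 2 + q y * Y ^ 2
  -- the quadratic form
  generalize q x = a at *
  generalize q y = b at *
  generalize q z = c at *
  have hA : 0 ≤ a - c := by linarith
  have hB : 0 ≤ b - c := by linarith
  have hdet : c ^ 2 ≤ (a - c) * (b - c) := by nlinarith
  rcases hA.eq_or_lt with h | h
  · have hc : c = 0 := by
      have : c ^ 2 ≤ 0 := by rw [← h] at hdet; linarith
      nlinarith
    subst hc
    have ha : a = 0 := by linarith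
    subst ha
    nlinarith [mul_nonneg (by linarith : 0 ≤ b) (sq_nonneg Y)]
  · have h1 : 0 ≤ (a - c) * ((a - c) * X ^ 2 + (b - c) * Y ^ 2 + 2 * c * X * Y) := by
      have e : (a - c) * ((a - c) * X ^ 2 + (b - c) * Y ^ 2 + 2 * c * X * Y) =
        ((a - c) * X + c * Y) ^ 2 + ((a - c) * (b - c) - c ^ 2) * Y ^ 2 := by ring
      rw [e]
      have : 0 ≤ ((a - c) * (b - c) - c ^ 2) * Y ^ 2 :=
        mul_nonneg (by linarith) (sq_nonneg _)
      positivity
    have h2 : 0 ≤ (a - c) * X ^ 2 + (b - c) * Y ^ 2 + 2 * c * X * Y := by
      by_contra hcon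
      push Not at hcon
      have := mul_neg_of_pos_of_neg h hcon
      linarith
    nlinarith

end Pool.Agent.Q264.GM
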