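import Pool.Agent.Q264.GM.Stm

set_option autoImplicit false

open MeasureTheory ProbabilityTheory Set Filter Topology
open scoped InnerProductSpace ENNReal

namespace Pool.Agent.Q264.GM

theorem ph_eq (x : ℝ) : gaussianPDFReal 0 1 x = ph x := by
  simp [gaussianPDFReal, ph]

theorem ph_pos (x : ℝ) : 0 < ph x := by
  unfold ph; positivity

theorem ph_cont : Continuous ph := by
  unfold ph; fun_prop

theorem ph_int : Integrable ph := by
  have := integrable_gaussianPDFReal 0 1
  refine this.congr (Eventually.of_forall fun x => ph_eq x)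

theorem g1_real (s : Set ℝ) (hs : MeasurableSet s) : g1.real s = ∫ x in s, ph x := by
  unfold g1
  rw [measureReal_def, gaussianReal_apply_eq_integral 0 (one_ne_zero), ENNReal.toReal_ofReal]
  · exact integral_congr_ae (Eventually.of_forall fun x => ph_eq x)
  · exact integral_nonneg fun x => gaussianPDFReal_nonneg 0 1 x

theorem Ioc_eq (a b : ℝ) (hab : a ≤ b) : g1.real (Ioc a b) = P b - P a := by
  have h : Iic b = Iic a ∪ Ioc a b := (Iic_union_Ioc_eq_Iic hab).symm
  unfold P
  rw [h, measureReal_union (by
    rw [Set.disjoint_left]; intro x hx hx'; exact absurd hx'.1 (not_lt.2 hx)) measurableSet_Ioc]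
  ring

instance : NullSingletonClass g1 := by
  unfold g1; exact noAtoms_gaussianReal one_ne_zero

theorem Icc_eq (a b : ℝ) (hab : a ≤ b) : g1.real (Icc a b) = P b - P a := by
  rw [← Ioc_eq a b hab]
  simp only [measureReal_def]
  rw [Ioc_ae_eq_Icc.measure_eq]

theorem P_sub (a b : ℝ) (hab : a ≤ b) : P b - P a = ∫ x in a..b, ph x := by
  rw [← Ioc_eq a b hab, g1_real _ measurableSet_Ioc, intervalIntegral.integral_of_le hab]

theorem P_sub' (a b : ℝ) : P b - P a = ∫ x in a..b, ph x := by
  rcases le_total a b with h | h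
  · exact P_sub a b h
  · rw [intervalIntegral.integral_symm, ← P_sub b a h]; ring

theorem t_PHI : S_PHI := by
  have hder : ∀ x, HasDerivAt P (ph x) x := by
    intro x
    have h1 : HasDerivAt (fun y => ∫ t in (0 : ℝ)..y, ph t) (ph x) x :=
      intervalIntegral.integral_hasDerivAt_right (ph_cont.intervalIntegrable _ _)
        (ph_cont.stronglyMeasurableAtFilter _ _) ph_cont.continuousAt
    have h2 : P = fun y => (∫ t in (0 : ℝ)..y, ph t) + P 0 := by
      funext y; rw [← P_sub']; ring
    rw [h2]
    exact h1.add_const _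
  have hmono : StrictMono P := by
    apply strictMono_of_deriv_pos
    intro x; rw [(hder x).deriv]; exact ph_pos x
  have hge : ∀ x, 0 ≤ P x := fun x => measureReal_nonneg
  have hle : ∀ x, P x ≤ 1 := fun x => measureReal_le_one
  refine ⟨hder, hmono, fun x => ?_, fun x => ?_, fun x => ?_, ?_, ?_, Icc_eq, Ioc_eq⟩
  · exact lt_of_le_of_lt (hge (x - 1)) (hmono (by linarith))
  · exact lt_of_lt_of_le (hmono (by linarith : x < x + 1)) (hle (x + 1))
  · have h1 : Measure.map (fun y : ℝ => -y) g1 = g1 := by
      unfold g1
      rw [gaussianReal_map_neg]; simp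
    unfold P
    have h2 : g1.real (Iic (-x)) = g1.real (Ici x) := by
      conv_lhs => rw [← h1]
      rw [measureReal_def, measureReal_def, Measure.map_apply (by fun_prop) measurableSet_Iic]
      congr 2
      ext y; simp
    rw [h2]
    have h3 : Ici x = (Iio x)ᶜ := by ext; simp
    rw [h3, measureReal_compl measurableSet_Iio, probReal_univ]
    congr 1
    simp only [measureReal_def]
    rw [Iio_ae_eq_Iic.measure_eq]
  · have : P = fun x => cdf g1 x := by funext x; rw [cdf_eq_real]; rfl
    rw [this]; exact tendsto_cdf_atBot g1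
  · have : P = fun x => cdf g1 x := by funext x; rw [cdf_eq_real]; rfl
    rw [this]; exact tendsto_cdf_atTop g1

end Pool.Agent.Q264.GM
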